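import Mathlib

/-!
# Orbits of the correlation map stay away from the all-ones matrix

Every row of a correlation matrix has its largest entry on the diagonal. If all the normalised
centred rows were close to each other, each of them would be almost constant, which is impossible
for a centred unit vector. Hence the image of the correlation map has a positive distance from the
all-ones matrix, and no orbit accumulates there.
-/

set_option autoImplicit false

namespace Pool.Agent.Results.MP_3f07b9_an.NoApproach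

open Finset

/-- The mean of a vector. -/
noncomputable def mean {m : ℕ} (x : Fin m → ℝ) : ℝ := (∑ k, x k) / m

/-- The Pearson correlation of two vectors. -/
noncomputable def corr {m : ℕ} (x y : Fin m → ℝ) : ℝ :=
  (∑ k, (x k - mean x) * (y k - mean y)) /
    Real.sqrt ((∑ k, (x k - mean x) ^ 2) * ∑ k, (y k - mean y) ^ 2)

/-- The correlation map: the matrix of the correlations of the rows of `A`. -/
noncomputable def C {n : ℕ} (A : Matrix (Fin n) (Fin n) ℝ) : Matrix (Fin n) (Fin n) ℝ :=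
  fun i j => corr (A i) (A j)

/-- The elliptope: real symmetric positive semidefinite matrices with unit diagonal. -/
def Elliptope (n : ℕ) : Set (Matrix (Fin n) (Fin n) ℝ) :=
  {A | A.PosSemidef ∧ ∀ i, A i i = 1}

/-- The all-ones matrix. -/
def ones (n : ℕ) : Matrix (Fin n) (Fin n) ℝ := fun _ _ => 1

/-- sum of squares of the centred vector -/
noncomputable def ss {m : ℕ} (x : Fin m → ℝ) : ℝ := ∑ k, (x k - mean x) ^ 2

/-- the normalised centred vector -/
noncomputable def nrm {m : ℕ} (x : Fin m → ℝ) : Fin m → ℝ := fun k => (x k - mean x) / Real.sqrt (ss x)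

lemma ss_nonneg {m : ℕ} (x : Fin m → ℝ) : 0 ≤ ss x := sum_nonneg fun _ _ => sq_nonneg _

lemma ss_pos {m : ℕ} (x : Fin m → ℝ) {a b : Fin m} (h : x a ≠ x b) : 0 < ss x := by
  rcases (ss_nonneg x).lt_or_eq with h1 | h1
  · exact h1
  · exfalso
    have h2 := (sum_eq_zero_iff_of_nonneg (fun k _ => sq_nonneg (x k - mean x))).1 h1.symm
    have ha := h2 a (mem_univ _)
    have hb := h2 b (mem_univ _)
    rw [sq_eq_zero_iff] at ha hb
    exact h (by linarith)

lemma corr_eq {m : ℕ} (x y : Fin m → ℝ) : corr x y = ∑ k, nrm x k * nrm y k := by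
  unfold corr nrm
  rw [Real.sqrt_mul (sum_nonneg fun _ _ => sq_nonneg _), sum_div]
  apply sum_congr rfl
  intro k _
  rw [div_mul_div_comm]
  rfl

lemma sum_nrm_sq {m : ℕ} (x : Fin m → ℝ) (h : 0 < ss x) : ∑ k, nrm x k ^ 2 = 1 := by
  unfold nrm
  simp_rw [div_pow, Real.sq_sqrt (ss_nonneg x)]
  rw [← sum_div]
  exact div_self h.ne'

lemma sum_nrm {m : ℕ} (x : Fin m → ℝ) : ∑ k, nrm x k = 0 := by
  unfold nrm
  rw [← sum_div, sum_sub_distrib]
  rcases Nat.eq_zero_or_pos m with rfl | hm
  · simp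
  · have hm' : (m : ℝ) ≠ 0 := by positivity
    have : ∑ _k : Fin m, mean x = ∑ k, x k := by
      rw [sum_const, card_univ, Fintype.card_fin, nsmul_eq_mul, mean]
      field_simp
    rw [this, sub_self, zero_div]

lemma nrm_le {m : ℕ} (x : Fin m → ℝ) {a b : Fin m} (h : x a ≤ x b) : nrm x a ≤ nrm x b := by
  unfold nrm
  gcongr

lemma sum_diff_sq {m : ℕ} (x y : Fin m → ℝ) (hx : 0 < ss x) (hy : 0 < ss y) :
    ∑ k, (nrm x k - nrm y k) ^ 2 = 2 - 2 * corr x y := by
  have h : ∀ k, (nrm x k - nrm y k) ^ 2 = nrm x k ^ 2 + nrm y k ^ 2 - 2 * (nrm x k * nrm y k) :=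
    fun k => by ring
  simp_rw [h]
  rw [sum_sub_distrib, sum_add_distrib, sum_nrm_sq x hx, sum_nrm_sq y hy, ← mul_sum, ← corr_eq]
  ring

/-- What is used of a correlation matrix: unit diagonal, entries at most one, no constant row. -/
structure Good {n : ℕ} (A : Matrix (Fin n) (Fin n) ℝ) : Prop where
  diag : ∀ i, A i i = 1
  le_one : ∀ i j, A i j ≤ 1
  row : ∀ i, ∃ a b, A i a ≠ A i b

lemma Good.ss {n : ℕ} {A : Matrix (Fin n) (Fin n) ℝ} (h : Good A) (i : Fin n) :
    0 < NoApproach.ss (A i) := by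
  obtain ⟨a, b, hab⟩ := h.row i
  exact ss_pos _ hab

/-- Key estimate. -/
lemma exists_entry {n : ℕ} (hn : 0 < n) {A : Matrix (Fin n) (Fin n) ℝ} (h : Good A) :
    ∃ i j, C A i j ≤ 1 - 1 / (8 * n) := by
  by_contra hcon
  push Not at hcon
  have hnr : (0 : ℝ) < n := by exact_mod_cast hn
  set δ : ℝ := Real.sqrt (1 / (4 * n)) with hδ
  have hδ0 : 0 < δ := Real.sqrt_pos.2 (by positivity)
  have hδ2 : δ ^ 2 = 1 / (4 * n) := Real.sq_sqrt (by positivity)
  have hclose : ∀ i j k, |nrm (A i) k - nrm (A j) k| < δ := by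
    intro i j k
    have h1 : (nrm (A i) k - nrm (A j) k) ^ 2 ≤ ∑ k, (nrm (A i) k - nrm (A j) k) ^ 2 :=
      single_le_sum (f := fun k => (nrm (A i) k - nrm (A j) k) ^ 2) (fun _ _ => sq_nonneg _)
        (mem_univ k)
    rw [sum_diff_sq _ _ (h.ss i) (h.ss j)] at h1
    have h2 := hcon i j
    have h3 : C A i j = corr (A i) (A j) := rfl
    rw [h3] at h2
    have h4 : (1 : ℝ) / (4 * n) = 2 * (1 / (8 * n)) := by field_simp; norm_num
    apply abs_lt_of_sq_lt_sq _ hδ0.le
    rw [hδ2, h4]
    linarith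
  have hmax : ∀ i k, nrm (A i) k ≤ nrm (A i) i := fun i k =>
    nrm_le _ (by rw [h.diag]; exact h.le_one i k)
  have i : Fin n := ⟨0, hn⟩
  have hosc : ∀ a b, nrm (A i) b < nrm (A i) a + 2 * δ := by
    intro a b
    have h1 := abs_lt.1 (hclose a i a)
    have h2 := abs_lt.1 (hclose a i b)
    have h3 := hmax a b
    linarith
  have hsmall : ∀ a, |nrm (A i) a| < 2 * δ := by
    intro a
    rw [abs_lt]
    constructor
    · by_contra hc
      push Not at hc
      have hneg : ∀ b, nrm (A i) b < 0 := fun b => by linarith [hosc a b]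
      have : ∑ b, nrm (A i) b < 0 := sum_neg (fun b _ => hneg b) ⟨i, mem_univ _⟩
      rw [sum_nrm] at this
      exact lt_irrefl _ this
    · by_contra hc
      push Not at hc
      have hpos : ∀ b, 0 < nrm (A i) b := fun b => by linarith [hosc b a]
      have : 0 < ∑ b, nrm (A i) b := sum_pos (fun b _ => hpos b) ⟨i, mem_univ _⟩
      rw [sum_nrm] at this
      exact lt_irrefl _ this
  have hlt : ∑ a, nrm (A i) a ^ 2 < ∑ _a : Fin n, (2 * δ) ^ 2 :=
    sum_lt_sum_of_nonempty ⟨i, mem_univ _⟩ fun a _ => by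
      apply sq_lt_sq.2
      rw [abs_of_pos (show (0 : ℝ) < 2 * δ by positivity)]
      exact hsmall a
  rw [sum_nrm_sq _ (h.ss i), sum_const, card_univ, Fintype.card_fin, nsmul_eq_mul, mul_pow, hδ2] at hlt
  have : (n : ℝ) * (2 ^ 2 * (1 / (4 * n))) = 1 := by field_simp; norm_num
  linarith

lemma C_diag {n : ℕ} {A : Matrix (Fin n) (Fin n) ℝ} (h : Good A) (i : Fin n) : C A i i = 1 := by
  have h1 : C A i i = corr (A i) (A i) := rfl
  rw [h1, corr_eq]
  simp_rw [← sq]
  exact sum_nrm_sq _ (h.ss i)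

lemma C_le_one {n : ℕ} {A : Matrix (Fin n) (Fin n) ℝ} (h : Good A) (i j : Fin n) : C A i j ≤ 1 := by
  have h1 : C A i j = corr (A i) (A j) := rfl
  have h2 := sum_diff_sq _ _ (h.ss i) (h.ss j)
  have h3 : 0 ≤ ∑ k, (nrm (A i) k - nrm (A j) k) ^ 2 := sum_nonneg fun _ _ => sq_nonneg _
  rw [h1]
  linarith

lemma C_posSemidef {n : ℕ} (A : Matrix (Fin n) (Fin n) ℝ) : (C A).PosSemidef := by
  set N : Matrix (Fin n) (Fin n) ℝ := fun i k => nrm (A i) k with hN
  have : C A = N * N.conjTranspose := by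
    ext i j
    show corr (A i) (A j) = _
    rw [corr_eq, Matrix.mul_apply]
    rfl
  rw [this]
  exact Matrix.posSemidef_self_mul_conjTranspose N

lemma Good.next {n : ℕ} (hn : 0 < n) {A : Matrix (Fin n) (Fin n) ℝ} (h : Good A) : Good (C A) := by
  refine ⟨C_diag h, C_le_one h, fun i => ?_⟩
  by_contra hcon
  push Not at hcon
  have hi : ∀ j, C A i j = 1 := fun j => by rw [hcon j i, C_diag h]
  have heq : ∀ j, nrm (A i) = nrm (A j) := by
    intro j
    have h2 := sum_diff_sq _ _ (h.ss i) (h.ss j)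
    have h3 : corr (A i) (A j) = 1 := hi j
    rw [h3] at h2
    norm_num at h2
    have h4 := (sum_eq_zero_iff_of_nonneg (fun k _ => sq_nonneg (nrm (A i) k - nrm (A j) k))).1 h2
    funext k
    have h5 := h4 k (mem_univ _)
    rw [sq_eq_zero_iff] at h5
    linarith
  obtain ⟨a, b, hab⟩ := exists_entry hn h
  have h6 : C A a b = C A i i := by
    show corr (A a) (A b) = corr (A i) (A i)
    rw [corr_eq, corr_eq, ← heq a, ← heq b]
  rw [h6, C_diag h] at hab
  have : (0 : ℝ) < 1 / (8 * n) := by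
    have : (0 : ℝ) < n := by exact_mod_cast hn
    positivity
  linarith

lemma good_of_mem {n : ℕ} {A : Matrix (Fin n) (Fin n) ℝ} (hA : A ∈ Elliptope n) (hne : A ≠ ones n) :
    Good A := by
  obtain ⟨hpsd, hdiag⟩ := hA
  have hsymm : ∀ i j, A i j = A j i := fun i j => by
    have := hpsd.isHermitian.apply i j
    simpa using this.symm
  have hquad : ∀ i j (s : ℝ), 0 ≤ 2 + 2 * s * A i j + (s ^ 2 - 1) := by
    intro i j s
    have h1 := hpsd.2
    have h2 := hpsd.dotProduct_mulVec_nonneg (Pi.single i 1 + Pi.single j s)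
    simp only [star_trivial, Matrix.mulVec_add, Matrix.mulVec_single, dotProduct_add,
      add_dotProduct] at h2
    simp at h2
    have h3 := hdiag i
    have h4 := hdiag j
    have h5 := hsymm j i
    rw [h3, h4] at h2
    rw [h5] at h2
    nlinarith [h2]
  have hle : ∀ i j, A i j ≤ 1 := fun i j => by
    have := hquad i j (-1)
    norm_num at this
    linarith
  refine ⟨hdiag, hle, fun i => ?_⟩
  by_contra hcon
  push Not at hcon
  apply hne
  have hi : ∀ j, A i j = 1 := fun j => by rw [hcon j i, hdiag]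
  have hker : ∀ j, A.mulVec (Pi.single i 1 - Pi.single j 1) = 0 := by
    intro j
    apply (hpsd.dotProduct_mulVec_zero_iff _).1
    simp only [star_trivial, Matrix.mulVec_sub, Matrix.mulVec_single, dotProduct_sub,
      sub_dotProduct]
    simp
    rw [hdiag, hdiag, hsymm j i, hi j]
    norm_num
  funext a b
  have h1 := congrFun (hker b) a
  simp only [Matrix.mulVec_sub, Matrix.mulVec_single] at h1
  simp at h1
  show A a b = 1
  have h2 := hsymm a i
  have h3 := hi a
  linarith

/-- Let `A` be an `n × n` correlation matrix (real symmetric, positive semidefinite, unit diagonal)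
other than the all-ones matrix. Then all iterates `C^k(A)` are again such matrices, for every
`k ≥ 1` some entry of `C^k(A)` is at most `1 - 1/(8n)`, a bound which does not depend on `A`, and
the distance of the orbit of `A` from the all-ones matrix is positive. In particular the all-ones
matrix is never an accumulation point of an orbit. -/
theorem result (n : ℕ) (A : Matrix (Fin n) (Fin n) ℝ) (hA : A ∈ Elliptope n) (hne : A ≠ ones n) :
    (∀ k : ℕ, C^[k] A ∈ Elliptope n ∧ C^[k] A ≠ ones n) ∧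
    (∀ k : ℕ, 1 ≤ k → ∃ i j, (C^[k] A) i j ≤ 1 - 1 / (8 * n)) ∧
    ∃ ε : ℝ, 0 < ε ∧ ∀ k : ℕ, ∃ i j, ε ≤ |(C^[k] A) i j - (ones n) i j| := by
  have hn : 0 < n := by
    rcases Nat.eq_zero_or_pos n with rfl | h
    · exact absurd (Subsingleton.elim _ _) hne
    · exact h
  have hnr : (0 : ℝ) < n := by exact_mod_cast hn
  have hgood : ∀ k : ℕ, Good (C^[k] A) := by
    intro k
    induction k with
    | zero => exact good_of_mem hA hne
    | succ k ih => rw [Function.iterate_succ_apply']; exact ih.next hn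
  have hne' : ∀ k : ℕ, C^[k] A ≠ ones n := by
    intro k heq
    obtain ⟨a, b, hab⟩ := (hgood k).row ⟨0, hn⟩
    rw [heq] at hab
    exact hab rfl
  have hmem : ∀ k : ℕ, C^[k] A ∈ Elliptope n := by
    intro k
    cases k with
    | zero => exact hA
    | succ k =>
      refine ⟨?_, (hgood (k + 1)).diag⟩
      rw [Function.iterate_succ_apply']
      exact C_posSemidef _
  have hentry : ∀ k : ℕ, 1 ≤ k → ∃ i j, (C^[k] A) i j ≤ 1 - 1 / (8 * n) := by
    intro k hk
    obtain ⟨k, rfl⟩ : ∃ l, k = l + 1 := ⟨k - 1, by omega⟩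
    rw [Function.iterate_succ_apply']
    exact exists_entry hn (hgood k)
  refine ⟨fun k => ⟨hmem k, hne' k⟩, hentry, ?_⟩
  obtain ⟨a, b, hab⟩ := (hgood 0).row ⟨0, hn⟩
  have h0 : ∃ i j, A i j ≠ 1 := by
    by_contra hcon
    push Not at hcon
    exact hne (by funext i j; exact hcon i j)
  obtain ⟨i₀, j₀, h0⟩ := h0
  refine ⟨min (|A i₀ j₀ - 1|) (1 / (8 * n)), lt_min (abs_pos.2 (sub_ne_zero.2 h0)) (by positivity),
    fun k => ?_⟩
  rcases Nat.eq_zero_or_pos k with rfl | hk
  · exact ⟨i₀, j₀, min_le_left _ _⟩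
  · obtain ⟨i, j, hij⟩ := hentry k hk
    refine ⟨i, j, (min_le_right _ _).trans ?_⟩
    show _ ≤ |(C^[k] A) i j - 1|
    rw [abs_sub_comm]
    exact le_trans (by linarith) (le_abs_self _)

end Pool.Agent.Results.MP_3f07b9_an.NoApproach
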